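import Pool.Agent.H13.CycPow

set_option autoImplicit false

namespace Pool.Agent.Results.MP_f19a21_co.Full

open Pool.Agent.H13.CycPow

theorem result :
    ∀ (h : ℕ) (H : SimpleGraph (Fin h)), H.chromaticNumber = 3 → ∀ ε : ℝ, 0 < ε →
      ∃ r₀ : ℕ, ∀ r : ℕ, r₀ ≤ r → ∃ n₀ : ℕ, ∀ n : ℕ, n₀ ≤ n →
        ∀ Γ : SimpleGraph (ZMod n), Γ ≤ cycPow n r →
          (c + ε) * r * n ≤ (Nat.card Γ.edgeSet : ℝ) → H.IsContained Γ := by
  intro h H hH ε hε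
  exact main H (SimpleGraph.chromaticNumber_le_iff_colorable.1 hH.le) ε hε

end Pool.Agent.Results.MP_f19a21_co.Full
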